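import Pool.Agent.Helper9.RTDefs

/-!
# Weighted plumbing trees and arborescent links

Only definitions.
-/

namespace Pool.Agent.Helper9.TG

/-- Rooted plane trees whose vertices have integer weights: a single vertex, or the tree `p` with
the root of `c` attached to the root of `p` as a further child. -/
inductive PTree
  | leaf (a : ℤ)
  | graft (p c : PTree)

namespace PTree

/-- The weight of the root. -/
def wt : PTree → ℤ
  | leaf a => a
  | graft p _ => p.wt

/-- The number of children of the root. -/
def deg : PTree → ℕ
  | leaf _ => 0
  | graft p _ => p.deg + 1

/-- The number of vertices. -/
def size : PTree → ℕ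
  | leaf _ => 1
  | graft p c => p.size + c.size

/-- All weights have absolute value at least `R` and all vertices have at most `D` children. -/
def Big (R D : ℕ) : PTree → Prop
  | leaf a => R ≤ a.natAbs
  | graft p c => p.Big R D ∧ c.Big R D ∧ p.deg + 1 ≤ D

end PTree

end Pool.Agent.Helper9.TG

namespace Pool.Agent.Helper9.Kashaev

open Pool.Agent.Helper9.TG

/-- `|a|` crossings of the strands number `k`, `k + 1`; all positive if `s` is true and `a > 0` or
if `s` is false and `a < 0`, and all negative otherwise. -/
def twist (k : ℕ) (s : Bool) (a : ℤ) : Diagram :=
  List.replicate a.natAbs (k, if decide (0 < a) = s then .pos else .neg)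

/-- The algebraic tangle of a weighted plumbing tree, on the strands number `k`, `k + 1`:
the crossings of the root, followed by the tangles of the children of the root, each of them
turned by a quarter turn. -/
def tangle : ℕ → Bool → PTree → Diagram
  | k, s, .leaf a => twist k s a
  | k, s, .graft p c => tangle k s p ++ [(k, .cup)] ++ tangle (k + 1) (!s) c ++ [(k + 2, .cap)]

/-- The arborescent link of a weighted plumbing tree (the boundary of the plumbing of twisted bands
according to the tree), cut open at one point: the closure of the tangle of the tree, on the
strands number 0 and 1, by an arc on the right. -/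
def plumbLink (t : PTree) : Diagram := [(1, .cup)] ++ tangle 0 true t ++ [(1, .cap)]

end Pool.Agent.Helper9.Kashaev
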