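import Pool.Agent.Helper9.TF.StepDefs
import Pool.Agent.Helper96.TF.EDefs
import Pool.Agent.Helper9.TG.PTree

/-!
# Definitions for the asymptotics of the Kashaev invariant of arborescent links
-/

namespace Pool.Agent.Helper9.TG

open Complex Finset
open Pool.Agent.Helper9.TB Pool.Agent.Helper9.TF
open scoped Matrix

/-! ### matrices -/

/-- the matrix of the Casimir operator -/
noncomputable def LM (N : ℕ) : Matrix (Fin N) (Fin N) ℂ := fun a l =>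
  if (a : ℕ) = l then lam N a else if (a : ℕ) = l + 1 then bb N a else 0

/-- the basis of the algebra generated by `LM` -/
noncomputable def nM (N : ℕ) : ℕ → Matrix (Fin N) (Fin N) ℂ
  | 0 => 1
  | m + 1 => (bb N (m + 1 : ℕ))⁻¹ • ((LM N - lam N m • (1 : Matrix (Fin N) (Fin N) ℂ)) * nM N m)

/-- the matrix of `a` half twists -/
noncomputable def twM (N : ℕ) (a : ℤ) : Matrix (Fin N) (Fin N) ℂ :=
  if 0 < a then AM N N ^ a.natAbs else (AM N N ^ a.natAbs).map (starRingEnd ℂ)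

/-- the first basis vector -/
noncomputable def e0 (N : ℕ) : Fin N → ℂ := fun i => if (i : ℕ) = 0 then 1 else 0

/-- the vector of a tree -/
noncomputable def Vt (N : ℕ) : PTree → Fin N → ℂ
  | .leaf a => (twM N a) *ᵥ (e0 N)
  | .graft p c => ∑ m : Fin N, (starRingEnd ℂ) (Vt N c (Fin.rev m)) • (nM N m *ᵥ Vt N p)

/-! ### functions -/

/-- the conjugate function -/
noncomputable def cj (f : ℂ → ℂ) (y : ℂ) : ℂ := (starRingEnd ℂ) (f ((starRingEnd ℂ) y))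

/-- the contribution of a child with weight `a`, `d - 1` children and function `f` -/
noncomputable def tc (N : ℕ) (a : ℤ) (d : ℕ) (f : ℂ → ℂ) : ℂ → ℂ :=
  if 0 < a then cj (nx N a.natAbs (d / (a.natAbs : ℝ) ^ 2) f)
  else nx N a.natAbs (d / (a.natAbs : ℝ) ^ 2) (cj f)

/-- the function of a tree, the product of the contributions of the children of the root -/
noncomputable def ft (N : ℕ) : PTree → ℂ → ℂ
  | .leaf _ => fun _ => 1
  | .graft p c => fun y => ft N p y * tc N c.wt (c.deg + 1) (ft N c) y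

/-- the final value of a tree, up to a factor of modulus one -/
noncomputable def rt (N : ℕ) (t : PTree) : ℂ :=
  site N t.wt.natAbs (t.deg / (t.wt.natAbs : ℝ) ^ 2) (if 0 < t.wt then ft N t else cj (ft N t)) 0

/-! ### the induction step -/

/-- the functions in the induction; `θ` is the number of children -/
structure GoodD (ρ h0 e4 : ℝ) (N θ : ℕ) (f : ℂ → ℂ) : Prop where
  ent : Differentiable ℂ f
  even : ∀ y, f (-y) = f y
  ne : ∀ y ∈ Metric.ball (0 : ℂ) ρ, f y ≠ 0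
  lip : LipS 0 ρ θ (θ / 2) (sl N f)
  glob : ∀ y : ℂ, |y.re| ≤ 1 / 2 → |y.im| ≤ h0 → ‖f y‖ ≤ ‖f 0‖ * Real.exp (N * (θ * e4))

/-- exponential decay away from the imaginary axis -/
def DecayD (ρ h0 κ : ℝ) (N : ℕ) (f : ℂ → ℂ) : Prop :=
  ∀ y : ℂ, |y.re| ≤ 1 / 2 → |y.im| ≤ h0 → ρ / 2 ≤ |y.re| → ‖f y‖ ≤ ‖f 0‖ * Real.exp (-(N * κ))

/-- the asymptotic data of `F = nx N a h f` at the point `y` -/
structure AsyD (C : ℝ) (N a θ : ℕ) (f F : ℂ → ℂ) (y t z : ℂ) : Prop where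
  near_t : ‖t - 1 / 4‖ ≤ 1 / 400
  near_z : ‖z - 1 / a‖ ≤ 2 * (1 + θ) / a ^ 2
  e1 : ‖gamt y t + gamt z t‖ ≤ C / Real.sqrt N
  e2 : ‖2 * Real.pi * I * a * z - 2 * Real.pi * I + gamy z t + sl N f z‖ ≤ C / Real.sqrt N
  e3 : ‖sl N F y - gamy y t‖ ≤ C / Real.sqrt N
  e4 : |Real.log ‖F y‖ - Real.log ‖f z‖ -
    N * (gam y t + gam z t + Real.pi * I * a * z ^ 2 - 2 * Real.pi * I * z).re| ≤
      C * (1 + Real.log N)

/-- the induction step and the last step, for at most `D` children -/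
structure StepD (ρ h0 e4 : ℝ) (D R : ℕ) : Prop where
  rho_pos : 0 < ρ
  rho_le : ρ ≤ 1 / 1000
  h0_pos : 0 < h0
  e4_pos : 0 < e4
  e4_le : D * e4 ≤ ρ ^ 2 / 32
  R_pos : 1 ≤ R
  step : ∀ a : ℕ, R ≤ a → ∀ θ : ℕ, θ ≤ D → ∃ C : ℝ, 0 < C ∧ ∃ N0 : ℕ, ∀ N : ℕ, N0 ≤ N →
    ∀ f : ℂ → ℂ, GoodD ρ h0 e4 N θ f →
      GoodD ρ h0 e4 N 1 (nx N a ((1 + θ) / a ^ 2) f) ∧
      DecayD ρ h0 (ρ ^ 2 / 8) N (nx N a ((1 + θ) / a ^ 2) f) ∧
      ∀ y ∈ Metric.ball (0 : ℂ) ρ, ∃ t z : ℂ, AsyD C N a θ f (nx N a ((1 + θ) / a ^ 2) f) y t z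
  last : ∀ a : ℕ, R ≤ a → ∀ θ : ℕ, 1 ≤ θ → θ ≤ D → ∃ C : ℝ, 0 < C ∧ ∃ N0 : ℕ, ∀ N : ℕ, N0 ≤ N →
    ∀ f : ℂ → ℂ, GoodD ρ h0 e4 N θ f → DecayD ρ h0 (ρ ^ 2 / 12) N f →
      ∃ z : ℂ, ‖z - 1 / a‖ ≤ 2 * θ / a ^ 2 ∧
        2 * Real.pi * I * a * z - 2 * Real.pi * I + sl N f z = 0 ∧
        |Real.log ‖site N a (θ / a ^ 2) f 0‖ - Real.log ‖f z‖ -
          N * (Real.pi * I * a * z ^ 2 - 2 * Real.pi * I * z).re| ≤ C * (1 + Real.log N)

/-! ### the critical point -/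

/-- The critical point data of a tree in the frame `s = ± 1`: `y` is the variable of the root,
`σ` the sum of the slopes at the root and `E` the critical value without the term of the root. -/
inductive TCrit : ℤ → PTree → ℂ → ℂ → ℂ → Prop
  | leaf (s a : ℤ) (y : ℂ) : TCrit s (.leaf a) y 0 0
  | graft {s : ℤ} {p c : PTree} {y σ E z τ F t : ℂ} (hp : TCrit s p y σ E)
      (hc : TCrit (-s) c z τ F)
      (hz : ‖z - 1 / (c.wt : ℂ)‖ ≤ 2 * (1 + c.deg) / (c.wt : ℝ) ^ 2) (ht : ‖t - 1 / 4‖ ≤ 1 / 200)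
      (site : -(s : ℂ) * (2 * Real.pi * I * (c.wt * z - 1)) + τ + gamy z t = 0)
      (kern : gamt y t + gamt z t = 0) :
      TCrit s (.graft p c) y (σ + gamy y t)
        (E + F - s * (Real.pi * I * c.wt * z ^ 2 - 2 * Real.pi * I * z) + gam y t + gam z t)

/-- The shapes of the tetrahedra have positive imaginary part. -/
structure Shp (y t : ℂ) : Prop where
  p1 : 0 < (-Complex.exp (-(2 * Real.pi * I * (t + y)))).im
  p2 : 0 < (-Complex.exp (-(2 * Real.pi * I * (t - y)))).im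
  p3 : 0 < (Complex.exp (2 * Real.pi * I * t)).im

/-- The same data with the sum `V` of the volumes of the octahedra. -/
inductive Geo : ℤ → PTree → ℂ → ℂ → ℝ → Prop
  | leaf (s a : ℤ) (y : ℂ) : Geo s (.leaf a) y 0 0
  | graft {s : ℤ} {p c : PTree} {y σ z τ t : ℂ} {V W : ℝ} (hp : Geo s p y σ V)
      (hc : Geo (-s) c z τ W) (h1 : Shp y t) (h2 : Shp z t)
      (hz : ‖z - 1 / (c.wt : ℂ)‖ ≤ 2 * (1 + c.deg) / (c.wt : ℝ) ^ 2) (ht : ‖t - 1 / 4‖ ≤ 1 / 200)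
      (site : -(s : ℂ) * (2 * Real.pi * I * (c.wt * z - 1)) + τ + gamy z t = 0)
      (kern : gamt y t + gamt z t = 0) :
      Geo s (.graft p c) y (σ + gamy y t) (V + W + GG y t + GG z t)

end Pool.Agent.Helper9.TG
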